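import Pool.Agent.H93.CT.Stmts

/-!
Module ANT of project CT: an uncountable antichain from a subtree.
-/

set_option linter.unusedVariables false
set_option synthInstance.maxSize 100000

namespace SW

section
variable {M : Type} [SetStr M] [ZF M]

theorem ant_mem {a v x n : M} (h : Fj a v) (hx : E (opair x n) v) : E x a ∧ E n om := by
  obtain ⟨x', n', h1, h2, h3⟩ := h.1 _ hx
  obtain ⟨rfl, rfl⟩ := opair_inj.1 h3
  exact ⟨h1, h2⟩

theorem ant_dmn {a v : M} (h : Fj a v) : dmn v = a := by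
  refine ext fun x => ?_
  rw [mem_dmn]
  exact ⟨fun ⟨n, hn⟩ => (ant_mem h hn).1, fun hx => h.2.1 x hx⟩

/-- a function is contained in another one with a larger domain if they never differ -/
theorem ant_sub {a b x y : M} (hx : Fj a x) (hy : Fj b y) (hab : Sub a b)
    (h : ¬ ∃ d n n', E (opair d n) x ∧ E (opair d n') y ∧ n ≠ n') : Sub x y := by
  intro z hz
  obtain ⟨d, n, hd, hn, rfl⟩ := hx.1 z hz
  obtain ⟨n', hn'⟩ := hy.2.1 d (hab d hd)
  by_cases hnn : n = n'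
  · rw [hnn]; exact hn'
  · exact absurd ⟨d, n, n', hz, hn', hnn⟩ h

theorem ant_res_sub {b x y d n' : M} (hb : Ord b) (hy : Fj b y) (hd : E (opair d n') y)
    (h : ∀ p, E p d → ¬ ∃ n n', E (opair p n) x ∧ E (opair p n') y ∧ n ≠ n') :
    Sub (res x d) (res y d) := by
  intro z hz
  rw [mem_res] at hz ⊢
  obtain ⟨hz, p, q, hp, rfl⟩ := hz
  refine ⟨?_, p, q, hp, rfl⟩
  obtain ⟨q', hq'⟩ := hy.2.1 p (hb.trans (ant_mem hy hd).1 hp)
  by_cases hqq : q = q'
  · rw [hqq]; exact hq'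
  · exact absurd ⟨q, q', hz, hq', hqq⟩ (h p hp)

/-- incomparable functions have a meet -/
theorem ant_meet {a b x y : M} (ha : Ord a) (hb : Ord b) (hx : Fj a x) (hy : Fj b y)
    (h1 : ¬ Sub x y) (h2 : ¬ Sub y x) : ∃ u, Mt x y u := by
  have h3 : ∃ d n n', E (opair d n) x ∧ E (opair d n') y ∧ n ≠ n' := by
    by_contra h
    have h' : ¬ ∃ d n n', E (opair d n) y ∧ E (opair d n') x ∧ n ≠ n' := by
      rintro ⟨d, n, n', h3, h4, h5⟩
      exact h ⟨d, n', n, h4, h3, fun e => h5 e.symm⟩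
    rcases ha.tri hb with hab | hab | hab
    · exact h1 (ant_sub hx hy (hb.sub_of_mem hab) h)
    · exact h1 (ant_sub hx hy (hab ▸ Sub.refl _) h)
    · exact h2 (ant_sub hy hx (ha.sub_of_mem hab) h')
  obtain ⟨d, hd⟩ := h3
  have hdo : Ord d := by
    obtain ⟨n, n', h4, h5, h6⟩ := hd
    exact ha.mem (ant_mem hx h4).1
  obtain ⟨r, hr, ⟨n, n', h4, h5, h6⟩, hmin, -⟩ := ord_min
    (C := fun d : M => ∃ n n', E (opair d n) x ∧ E (opair d n') y ∧ n ≠ n') inferInstance hdo hd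
  have e : res x r = res y r := by
    refine Sub.antisymm (ant_res_sub hb hy h5 hmin) (ant_res_sub ha hx h4 ?_)
    rintro p hp ⟨q, q', h7, h8, h9⟩
    exact hmin p hp ⟨q', q, h8, h7, fun e => h9 e.symm⟩
  exact ⟨res x r, r, n, n', h4, h5, h6, rfl, e⟩

end

theorem ct_ant (hac : ACFStmt) (hcb : CBTStmt) : ANTStmt := by
  intro M _ _ w T B hw hT hB hunb
  have cb := hcb M
  obtain ⟨g, hg⟩ := hac M B
  let X : M → M := fun b => app g (sep B (fun x : M => E b (dmn x)))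
  have hX : Fn1 X := by
    show Fn1 (fun b : M => app g (sep B (fun x : M => E b (dmn x))))
    infer_instance
  let Y : M → M := fun b => res (X b) (suc b)
  have hY : Fn1 Y := by
    show Fn1 (fun b : M => res (X b) (suc b))
    infer_instance
  have hXs : ∀ b, E b w → E (X b) B ∧ E b (dmn (X b)) := by
    intro b hb
    have h1 : E (X b) (sep B (fun x : M => E b (dmn x))) := by
      obtain ⟨x, hx, hbx⟩ := hunb b hb
      refine hg _ (fun z hz => ?_) ⟨x, ?_⟩
      · rw [mem_sep' inferInstance] at hz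
        exact hz.1
      · rw [mem_sep' inferInstance]
        exact ⟨hx, hbx⟩
    rw [mem_sep' inferInstance] at h1
    exact h1
  have hXf : ∀ b, E b w → ∃ a, E a w ∧ Ord a ∧ Fj a (X b) ∧ E b a := by
    intro b hb
    obtain ⟨h1, h2⟩ := hXs b hb
    obtain ⟨a, ha, hf⟩ := hT.fn _ (hB _ h1)
    rw [ant_dmn hf] at h2
    exact ⟨a, ha, hw.1.mem ha, hf, h2⟩
  have hYT : ∀ b, E b w → E (Y b) T := by
    intro b hb
    obtain ⟨a, ha, hao, hf, hba⟩ := hXf b hb
    have hbo : Ord b := hw.1.mem hb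
    rcases (Ord_suc hbo).tri hao with h | h | h
    · refine hT.res _ _ (hB _ (hXs b hb).1) ?_
      rw [ant_dmn hf]; exact h
    · have : Y b = X b := by
        refine ext fun z => ?_
        show E z (res (X b) (suc b)) ↔ _
        rw [mem_res]
        refine ⟨fun h => h.1, fun hz => ⟨hz, ?_⟩⟩
        obtain ⟨x, n, hx, hn, rfl⟩ := hf.1 z hz
        exact ⟨x, n, by rw [h]; exact hx, rfl⟩
      rw [this]
      exact hB _ (hXs b hb).1
    · rw [mem_suc] at h
      rcases h with h | h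
      · exact (not_mem_cycle h hba).elim
      · rw [h] at hba
        exact (not_mem_self _ hba).elim
  let S : M → M := fun n => sep w (fun b : M => E (opair b n) (Y b))
  have hSf : Fn1 S := by
    show Fn1 (fun n : M => sep w (fun b : M => E (opair b n) (Y b)))
    infer_instance
  have hS : ∀ n b, E b (S n) ↔ E b w ∧ E (opair b n) (Y b) := fun n b =>
    mem_sep' inferInstance
  obtain ⟨n, hn, hnS⟩ : ∃ n, E n om ∧ ¬ Cb (S n) := by
    by_contra hcon
    have h1 : Cb (sUn (img om S)) := cb.iUn S hSf cb.om fun n hn => by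
      by_contra h
      exact hcon ⟨n, hn, h⟩
    refine hw.2.1 (cb.sub h1 fun b hb => ?_)
    obtain ⟨a, ha, hao, hf, hba⟩ := hXf b hb
    obtain ⟨n, hn⟩ := hf.2.1 b hba
    rw [mem_sUn]
    refine ⟨S n, (mem_img' hSf).2 ⟨n, (ant_mem hf hn).2, rfl⟩, (hS n b).2 ⟨hb, ?_⟩⟩
    exact opair_mem_res.2 ⟨hn, mem_suc.2 (Or.inr rfl)⟩
  have hinc : ∀ b c, E b (S n) → E c (S n) → b ≠ c → ¬ Sub (Y b) (Y c) := by
    intro b c hb hc hbc h
    obtain ⟨hb1, hb2⟩ := (hS n b).1 hb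
    obtain ⟨hc1, hc2⟩ := (hS n c).1 hc
    obtain ⟨a, ha, hf⟩ := hT.fn _ (hYT c hc1)
    exact hbc (hf.2.2.2 b c n (h _ hb2) hc2)
  have hA : ∀ y, E y (img (S n) Y) ↔ ∃ b, E b (S n) ∧ y = Y b := fun y => mem_img' hY
  refine ⟨img (S n) Y, ?_, ?_, ?_, ?_⟩
  · intro y hy
    obtain ⟨b, hb, rfl⟩ := (hA y).1 hy
    exact hYT b ((hS n b).1 hb).1
  · intro hcA
    refine hnS (cb.inj Y hY hcA (fun b hb => (hA _).2 ⟨b, hb, rfl⟩) fun b c hb hc h => ?_)
    by_contra hbc
    exact hinc b c hb hc hbc (h ▸ Sub.refl _)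
  · intro x y hx hy hxy
    obtain ⟨b, hb, rfl⟩ := (hA x).1 hx
    obtain ⟨c, hc, rfl⟩ := (hA y).1 hy
    have hbc : b ≠ c := fun e => hxy (by rw [e])
    obtain ⟨a, ha, hf⟩ := hT.fn _ (hYT b ((hS n b).1 hb).1)
    obtain ⟨a', ha', hf'⟩ := hT.fn _ (hYT c ((hS n c).1 hc).1)
    exact ⟨hinc b c hb hc hbc, ant_meet (hw.1.mem ha) (hw.1.mem ha') hf hf'
      (hinc b c hb hc hbc) (hinc c b hc hb fun e => hbc e.symm)⟩
  · rintro x y u hx hy hxy ⟨d, m, m', h1, h2, h3, h4, h5⟩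
    obtain ⟨b, hb, rfl⟩ := (hA x).1 hx
    obtain ⟨c, hc, rfl⟩ := (hA y).1 hy
    have key : ∀ b k, E b w → E (opair d k) (Y b) → res (Y b) d = res (X b) d := by
      intro b k hb hk
      have hd : E d (suc b) := (opair_mem_res.1 hk).2
      refine ext fun z => ?_
      constructor
      · intro h
        obtain ⟨h6, h7⟩ := mem_res.1 h
        exact mem_res.2 ⟨(mem_res.1 h6).1, h7⟩
      · intro h
        obtain ⟨h6, p, q, hp, rfl⟩ := mem_res.1 h
        exact mem_res.2 ⟨mem_res.2 ⟨h6, p, q, (Ord_suc (hw.1.mem hb)).trans hd hp, rfl⟩,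
          p, q, hp, rfl⟩
    have hb1 := ((hS n b).1 hb).1
    have hc1 := ((hS n c).1 hc).1
    refine ⟨X b, X c, (hXs b hb1).1, (hXs c hc1).1, d, m, m', (opair_mem_res.1 h1).1,
      (opair_mem_res.1 h2).1, h3, ?_, ?_⟩
    · rw [h4, key b m hb1 h1]
    · rw [h5, key c m' hc1 h2]

end SW
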