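import Pool.Agent.H93.CT.Stmts

/-!
Module BIT of project CT: a transitive set closed under small subsets.
-/

set_option linter.unusedVariables false
set_option synthInstance.maxSize 100000

namespace SW

theorem ct_bit (hbig : BIGStmt) : BITStmt := by
  intro M _ _ z hz
  obtain ⟨H0, hH0⟩ := hbig M z hz
  have hmem : ∀ x : M, E x (sep H0 (fun x : M => Sub (tc x) H0)) ↔ E x H0 ∧ Sub (tc x) H0 :=
    fun x => mem_sep' inferInstance
  refine ⟨sep H0 (fun x : M => Sub (tc x) H0), ?_, ?_⟩
  · intro y hy u hu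
    rw [hmem] at hy ⊢
    have h1 : E u (tc y) := sub_tc y u hu
    refine ⟨hy.2 u h1, fun t ht => hy.2 t ?_⟩
    exact tc_min (Trans_tc y u h1) (Trans_tc y) t ht
  · intro a ha hi
    rw [hmem]
    refine ⟨hH0 a (fun t ht => ((hmem t).1 (ha t ht)).1) hi, ?_⟩
    have h2 : Sub (tc a) (sep H0 (fun x : M => Sub (tc x) H0)) := by
      refine tc_min ha ?_
      intro y hy u hu
      rw [hmem] at hy ⊢
      have h1 : E u (tc y) := sub_tc y u hu
      refine ⟨hy.2 u h1, fun t ht => hy.2 t ?_⟩
      exact tc_min (Trans_tc y u h1) (Trans_tc y) t ht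
    exact fun t ht => ((hmem t).1 (h2 t ht)).1

end SW
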