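import Pool.Agent.H2.CT.ANT

/-!
Module ENE of project CT: the colouring axiom from the dichotomy.
-/

set_option linter.unusedVariables false
set_option synthInstance.maxSize 100000

namespace SW

theorem ct_ene (hant : ANTStmt) (hwf : WFStmt) : ENEStmt := by
  intro M _ _ w T hw hT hdi K hK
  have wf := hwf M w hw
  rcases hdi K hK with ⟨v, F, hv, hF, hFo, hav, hno⟩ | ⟨B, hB, hunb, hBK⟩
  · obtain ⟨a, ha, hfa⟩ := hT.fn v hv
    have hda : dmn v = a := ant_dmn hfa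
    have hao : Ord a := hw.1.mem ha
    have hBm : ∀ s : M, E s (sep T (fun s : M => Sub v s ∧ Av F s)) ↔
        E s T ∧ Sub v s ∧ Av F s := fun s => mem_sep' inferInstance
    have hunb : ∀ c, E c w → ∃ x, E x (sep T (fun s : M => Sub v s ∧ Av F s)) ∧ E c (dmn x) := by
      intro c hc
      have h1 : ∃ c', E c' w ∧ E c c' ∧ E a c' := by
        rcases (hw.1.mem hc).tri hao with h | h | h
        · exact ⟨suc a, wf.suc ha, mem_suc.2 (Or.inl h), mem_suc.2 (Or.inr rfl)⟩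
        · exact ⟨suc a, wf.suc ha, mem_suc.2 (Or.inr h), mem_suc.2 (Or.inr rfl)⟩
        · exact ⟨suc c, wf.suc hc, mem_suc.2 (Or.inr rfl), mem_suc.2 (Or.inl h)⟩
      obtain ⟨c', h1, h2, h3⟩ := h1
      obtain ⟨v', h4, h5, h6, h7⟩ := hT.ext v c' F hv h1 (by rw [hda]; exact h3) hF hFo hav
      exact ⟨v', (hBm v').2 ⟨h4, h5, h6⟩, by rw [h7]; exact h2⟩
    obtain ⟨A, h1, h2, h3, h4⟩ := hant M w T _ hw hT (fun s hs => ((hBm s).1 hs).1) hunb
    refine ⟨A, h1, h2, h3, Or.inr ?_⟩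
    intro x y u hx hy hxy hm
    obtain ⟨x', y', hx', hy', hm'⟩ := h4 x y u hx hy hxy hm
    obtain ⟨h5, h6, h7⟩ := (hBm x').1 hx'
    obtain ⟨h8, h9, h10⟩ := (hBm y').1 hy'
    obtain ⟨d, n, n', h11, h12, h13, h14, h15⟩ := hm'
    obtain ⟨b, hb, hfb⟩ := hT.fn x' h5
    obtain ⟨b', hb', hfb'⟩ := hT.fn y' h8
    have hdo : Ord d := (hw.1.mem hb).mem (ant_mem hfb h11).1
    have had : Sub a d := by
      rcases hao.tri hdo with h | h | h
      · exact hdo.sub_of_mem h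
      · exact h ▸ Sub.refl _
      · exfalso
        obtain ⟨k, hk⟩ := hfa.2.1 d h
        exact h13 ((hfb.2.2.1 d n k h11 (h6 _ hk)).trans (hfb'.2.2.1 d k n' (h9 _ hk) h12))
    refine hno u ?_ ?_ ?_
    · rw [h14]
      exact hT.res x' d h5 (by rw [ant_dmn hfb]; exact (ant_mem hfb h11).1)
    · intro z hz
      obtain ⟨p, q, hp, hq, rfl⟩ := hfa.1 z hz
      rw [h14]
      exact opair_mem_res.2 ⟨h6 _ hz, had p hp⟩
    · intro k p hk hpk
      rw [h14] at hpk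
      exact h7 k p hk (opair_mem_res.1 hpk).1
  · obtain ⟨A, h1, h2, h3, h4⟩ := hant M w T B hw hT hB hunb
    refine ⟨A, h1, h2, h3, Or.inl ?_⟩
    intro x y u hx hy hxy hm
    obtain ⟨x', y', hx', hy', hm'⟩ := h4 x y u hx hy hxy hm
    exact hBK x' y' u hx' hy' hm'

end SW
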