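import Pool.Agent.H93.CT.Stmts

/-!
Module HFX of project CT: facts about the set `H`.
-/

set_option linter.unusedVariables false
set_option synthInstance.maxSize 100000

namespace SW

section
variable {M : Type} [SetStr M] [ZF M]

/-- countable sets are images of sets containing the natural numbers -/
theorem hfx_img {Z a : M} (hZ : Sub om Z) (ha : Cb a) : Img Z a := by
  obtain ⟨f, h1, h2⟩ := ha
  refine ⟨sep (prod om a) (fun z : M => ∃ n y, z = opair n y ∧ E (opair y n) f),
    fun y hy => ?_⟩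
  obtain ⟨n, hn, hf⟩ := h1 y hy
  refine ⟨n, hZ n hn, ?_⟩
  symm
  have hm : ∀ y' : M, E (opair n y') (sep (prod om a)
      (fun z : M => ∃ n y, z = opair n y ∧ E (opair y n) f)) ↔ E y' a ∧ E (opair y' n) f := by
    intro y'
    rw [mem_sep' inferInstance, mem_prod]
    constructor
    · rintro ⟨⟨_, h3⟩, n', y'', h4, h5⟩
      obtain ⟨rfl, rfl⟩ := opair_inj.1 h4
      exact ⟨h3, h5⟩
    · rintro ⟨h3, h4⟩
      exact ⟨⟨hn, h3⟩, n, y', rfl, h4⟩
  refine the_eq ((hm y).2 ⟨hy, hf⟩) fun y' hy' => ?_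
  obtain ⟨h3, h4⟩ := (hm y').1 hy'
  exact h2 y' y n h3 hy hn h4 hf

end

theorem ct_hfx (hz : ZFXStmt) (hcb : CBAStmt) : HFXStmt := by
  intro M _ _ w Z H hb hH hcl
  have zf := hz M w Z hb
  have cb := hcb M
  have hZH : Sub Z H := by
    intro z
    refine mem_induction (C := fun z : M => E z Z → E z H) inferInstance ?_ z
    intro z ih hz
    refine hcl z (fun y hy => ih y hy (hb.tz z hz y hy)) ?_
    refine ⟨gr Z (fun x : M => x), fun y hy => ?_⟩
    have hyZ : E y Z := hb.tz z hz y hy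
    exact ⟨y, hyZ, (app_gr (f := fun x : M => x) inferInstance hyZ).symm⟩
  have hcb' : ∀ a, Sub a H → Cb a → E a H := fun a h1 h2 => hcl a h1 (hfx_img zf.omZ h2)
  have hup : ∀ {a b : M}, E a H → E b H → E (upair a b) H := by
    intro a b ha hb'
    refine hcb' _ (fun z hz => ?_) (cb.fin ?_)
    · rw [mem_upair] at hz
      rcases hz with rfl | rfl
      · exact ha
      · exact hb'
    · have : upair a b = ins a (ins b emp) := ext fun z => by
        simp [or_comm]
      rw [this]
      exact finF.ins (finF.ins finF.emp)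
  have hop : ∀ {a b : M}, E a H → E b H → E (opair a b) H := fun ha hb' =>
    hup (hup ha ha) (hup ha hb')
  have hcond : ∀ {I p : M}, Sub I H → E p (PQ w Z I) → E p H := by
    intro I p hI hp
    unfold PQ at hp
    rw [mem_sep', mem_pow] at hp
    · obtain ⟨h1, a, h2⟩ := hp
      refine hcb' p (fun z hz => ?_) h2.1.2.1
      obtain ⟨K, b, x, hK, hba, hx, rfl⟩ := h2.1.2.2.1 z hz
      have hz' := h1 _ hz
      rw [mem_prod, mem_prod] at hz'
      refine hop ?_ (hop (hZH _ (zf.wZ _ hz'.2.1)) (hZH _ hx))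
      rcases hK with rfl | hK
      · exact hZH _ zf.eZ
      · exact hI _ hK
    · infer_instance
  refine ⟨hZH, hop, hcond, ?_⟩
  intro I e hI hi h
  refine hcl e (fun t ht => ?_) hi
  obtain ⟨u, q, hu, hq, rfl⟩ := h t ht
  refine hop (hZH _ ?_) (hcond hI hq)
  unfold NU at hu
  rw [mem_sep' inferInstance] at hu
  obtain ⟨_, a, ha, hn⟩ := hu
  exact (zf.nd ha hn).2

end SW
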